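import Pool.Agent.H88.WR.Targets

/-!
# Row JFN: the functional which does not attain its norm
-/

set_option autoImplicit false

open Filter Topology Set Pool.Agent.H85.WMP Pool.Agent.H88.WR

namespace Pool.Agent.H94.WR

section

variable {V : Type} [NormedAddCommGroup V] [NormedSpace ℝ V]

/-- the partial sums -/
noncomputable def Dn (t : ℝ) (g : ℕ → V) (w : V) (n : ℕ) : V :=
  ∑ j ∈ Finset.range n, (t ^ j - t ^ (j + 1)) • (g j - w)

theorem Dn_succ (t : ℝ) (g : ℕ → V) (w : V) (n : ℕ) :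
    Dn t g w (n + 1) = Dn t g w n + (t ^ n - t ^ (n + 1)) • (g n - w) := by
  unfold Dn
  rw [Finset.sum_range_succ]

theorem psi_sub (t : ℝ) (g : ℕ → V) (w : V) (n : ℕ) :
    (∑ j ∈ Finset.range n, (t ^ j - t ^ (j + 1)) • g j + t ^ n • g n) - w =
      Dn t g w n + t ^ n • (g n - w) := by
  have h : ∀ n, ∑ j ∈ Finset.range n, (t ^ j - t ^ (j + 1)) • g j =
      Dn t g w n + (1 - t ^ n) • w := by
    intro n
    induction n with
    | zero => simp [Dn]
    | succ n ih =>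
      rw [Finset.sum_range_succ, ih, Dn_succ]
      module
  rw [h]
  module

theorem dn_step {t : ℝ} (g : ℕ → V) (w : V) (n : ℕ) :
    t ^ n • Dn t g w (n + 1) = t ^ (n + 1) • Dn t g w n +
      (t ^ n - t ^ (n + 1)) • (Dn t g w n + t ^ n • (g n - w)) := by
  rw [Dn_succ]
  module

theorem core_fn [CompleteSpace V] (t θ : ℝ) (ht0 : 0 < t) (ht1 : t < 1) (g : ℕ → V)
    (w : V) (hg : ∀ n, ‖g n‖ ≤ 1) (hw : ‖w‖ ≤ 1) (α : ℕ → ℝ) (hα : Monotone α)
    (hα1 : ∀ n, θ ≤ α n) (hα2 : ∀ n, α n ≤ 2)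
    (hψ : ∀ n, ‖(∑ j ∈ Finset.range n, (t ^ j - t ^ (j + 1)) • g j + t ^ n • g n) - w‖ ≤
        α n * (1 + t ^ (n + 1) * ((1 / 2) ^ n / 4)) ∧
      α n * (1 - t ^ (n + 1) * ((1 / 2) ^ n / 4)) ≤
        ‖(∑ j ∈ Finset.range n, (t ^ j - t ^ (j + 1)) • g j + t ^ n • g n) - w‖)
    (hθ : 0 < θ) :
    ∃ h : V, θ ≤ ‖h‖ ∧ ∀ n, ‖h - Dn t g w n‖ ≤ 2 * t ^ n ∧
      ‖Dn t g w n‖ ≤ ‖h‖ * (1 - t ^ n / 2) := by
  have htp : ∀ n, 0 < t ^ n := fun n => pow_pos ht0 n
  have hb : ∀ n, 0 ≤ t ^ n - t ^ (n + 1) := by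
    intro n
    rw [pow_succ]
    nlinarith [htp n]
  have hd : ∀ n, ‖g n - w‖ ≤ 2 := fun n => by
    have h1 := norm_sub_le (g n) w
    linarith [hg n]
  -- Cauchy
  have hdiff : ∀ n k, ‖Dn t g w (n + k) - Dn t g w n‖ ≤ 2 * (t ^ n - t ^ (n + k)) := by
    intro n k
    induction k with
    | zero => simp
    | succ k ih =>
      have h1 : Dn t g w (n + (k + 1)) - Dn t g w n = (Dn t g w (n + k) - Dn t g w n) +
          (t ^ (n + k) - t ^ (n + k + 1)) • (g (n + k) - w) := by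
        rw [← add_assoc n k 1, Dn_succ]
        abel
      rw [h1]
      have h2 := norm_add_le (Dn t g w (n + k) - Dn t g w n)
        ((t ^ (n + k) - t ^ (n + k + 1)) • (g (n + k) - w))
      rw [norm_smul, Real.norm_of_nonneg (hb _)] at h2
      have h3 := mul_le_mul_of_nonneg_left (hd (n + k)) (hb (n + k))
      rw [← add_assoc n k 1]
      linarith
  have ht0' : Tendsto (fun n : ℕ => t ^ n) atTop (𝓝 0) :=
    tendsto_pow_atTop_nhds_zero_of_lt_one ht0.le ht1
  have hcau : CauchySeq (Dn t g w) := by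
    refine cauchySeq_of_le_tendsto_0' (fun n => 2 * t ^ n) (fun n m hnm => ?_) ?_
    · obtain ⟨k, rfl⟩ := Nat.exists_eq_add_of_le hnm
      rw [dist_eq_norm, norm_sub_rev]
      have := hdiff n k
      have := htp (n + k)
      linarith
    · have := ht0'.const_mul 2
      rwa [mul_zero] at this
  obtain ⟨h, hh⟩ := cauchySeq_tendsto_of_complete hcau
  -- the limit of `α`
  have hbdd : BddAbove (range α) := ⟨2, by rintro _ ⟨n, rfl⟩; exact hα2 n⟩
  have hA := tendsto_atTop_ciSup hα hbdd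
  set A : ℝ := ⨆ n, α n with hAdef
  have hαA : ∀ n, α n ≤ A := fun n => le_ciSup hbdd n
  have hθA : θ ≤ A := (hα1 0).trans (hαA 0)
  have hA0 : 0 < A := hθ.trans_le hθA
  have hε : Tendsto (fun n : ℕ => t ^ (n + 1) * ((1 / 2 : ℝ) ^ n / 4)) atTop (𝓝 0) := by
    have h1 : Tendsto (fun n : ℕ => t ^ (n + 1)) atTop (𝓝 0) := ht0'.comp (tendsto_add_atTop_nat 1)
    have h2 : Tendsto (fun n : ℕ => (1 / 2 : ℝ) ^ n / 4) atTop (𝓝 (0 / 4)) :=
      (tendsto_pow_atTop_nhds_zero_of_lt_one (by norm_num) (by norm_num)).div_const 4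
    have := h1.mul h2
    rwa [zero_mul] at this
  have hψlim : Tendsto (fun n => ‖(∑ j ∈ Finset.range n, (t ^ j - t ^ (j + 1)) • g j +
      t ^ n • g n) - w‖) atTop (𝓝 ‖h‖) := by
    refine Tendsto.norm ?_
    have h1 : Tendsto (fun n => t ^ n • (g n - w)) atTop (𝓝 0) := by
      rw [tendsto_zero_iff_norm_tendsto_zero]
      have h2 : Tendsto (fun n : ℕ => t ^ n * 2) atTop (𝓝 0) := by
        have := ht0'.mul_const 2
        rwa [zero_mul] at this
      refine squeeze_zero (fun n => norm_nonneg _) (fun n => ?_) h2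
      rw [norm_smul, Real.norm_of_nonneg (htp n).le]
      exact mul_le_mul_of_nonneg_left (hd n) (htp n).le
    have h3 := hh.add h1
    rw [add_zero] at h3
    refine h3.congr fun n => ?_
    rw [psi_sub]
  have hAh : ‖h‖ = A := by
    apply le_antisymm
    · have h1 : Tendsto (fun n => α n * (1 + t ^ (n + 1) * ((1 / 2) ^ n / 4))) atTop
          (𝓝 (A * (1 + 0))) := hA.mul (tendsto_const_nhds.add hε)
      rw [add_zero, mul_one] at h1
      exact le_of_tendsto_of_tendsto' hψlim h1 fun n => (hψ n).1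
    · have h1 : Tendsto (fun n => α n * (1 - t ^ (n + 1) * ((1 / 2) ^ n / 4))) atTop
          (𝓝 (A * (1 - 0))) := hA.mul (tendsto_const_nhds.sub hε)
      rw [sub_zero, mul_one] at h1
      exact le_of_tendsto_of_tendsto' h1 hψlim fun n => (hψ n).2
  refine ⟨h, hAh ▸ hθA, fun n => ⟨?_, ?_⟩⟩
  · have h1 : Tendsto (fun k => ‖Dn t g w (n + k) - Dn t g w n‖) atTop
        (𝓝 ‖h - Dn t g w n‖) := by
      refine Tendsto.norm (Tendsto.sub_const ?_ _)
      have h2 := hh.comp (tendsto_add_atTop_nat n)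
      refine h2.congr fun k => ?_
      rw [Function.comp_apply, add_comm]
    refine le_of_tendsto' h1 fun k => ?_
    have h2 := hdiff n k
    have h3 := htp (n + k)
    linarith
  · rw [hAh]
    have hkey : ∀ n, ‖Dn t g w n‖ ≤ A * (1 - t ^ n * (1 / 2 + (1 / 2) ^ n / 2)) := by
      intro n
      induction n with
      | zero => norm_num [Dn]
      | succ n ih =>
        have h1 := dn_step (t := t) g w n
        rw [← psi_sub] at h1
        have h2 := congrArg norm h1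
        rw [norm_smul, Real.norm_of_nonneg (htp n).le] at h2
        have h3 := norm_add_le (t ^ (n + 1) • Dn t g w n) ((t ^ n - t ^ (n + 1)) •
          ((∑ j ∈ Finset.range n, (t ^ j - t ^ (j + 1)) • g j + t ^ n • g n) - w))
        rw [norm_smul, norm_smul, Real.norm_of_nonneg (htp (n + 1)).le,
          Real.norm_of_nonneg (hb n), ← h2] at h3
        have h4 : ‖(∑ j ∈ Finset.range n, (t ^ j - t ^ (j + 1)) • g j + t ^ n • g n) - w‖ ≤
            A * (1 + t ^ (n + 1) * ((1 / 2) ^ n / 4)) := by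
          refine (hψ n).1.trans (mul_le_mul_of_nonneg_right (hαA n) ?_)
          have := htp (n + 1)
          positivity
        have h5 := mul_le_mul_of_nonneg_left h4 (hb n)
        have h6 := mul_le_mul_of_nonneg_left ih (htp (n + 1)).le
        have h7 : t ^ n * ‖Dn t g w (n + 1)‖ ≤
            t ^ n * (A * (1 - t ^ (n + 1) * (1 / 2 + (1 / 2) ^ (n + 1) / 2))) := by
          refine (h3.trans (add_le_add h6 h5)).trans (le_of_sub_nonneg ?_)
          have h8 : t ^ n * (A * (1 - t ^ (n + 1) * (1 / 2 + (1 / 2) ^ (n + 1) / 2))) -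
              (t ^ (n + 1) * (A * (1 - t ^ n * (1 / 2 + (1 / 2) ^ n / 2))) +
                (t ^ n - t ^ (n + 1)) * (A * (1 + t ^ (n + 1) * ((1 / 2) ^ n / 4)))) =
              A * (t ^ (n + 1) * t ^ (n + 1) * ((1 / 2) ^ n / 4)) := by
            rw [pow_succ (1 / 2 : ℝ) n]
            ring
          rw [h8]
          have := htp (n + 1)
          positivity
        exact le_of_mul_le_mul_left h7 (htp n)
    refine (hkey n).trans (mul_le_mul_of_nonneg_left ?_ hA0.le)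
    have h1 : 0 ≤ t ^ n * ((1 / 2 : ℝ) ^ n / 2) := by
      have := htp n
      positivity
    linarith

end

theorem pf_JFN (𝕜 : Type) [RCLike 𝕜] (hJLM : T_JLM 𝕜) (hJSQ : T_JSQ 𝕜) : T_JFN 𝕜 := by
  intro E _ _ f θ hf hθ hdist
  obtain ⟨hL1, -, -, hL4⟩ := hJLM E
  set t : ℝ := min θ 1 / 16 with ht
  have hmin : 0 < min θ 1 := lt_min hθ one_pos
  have ht0 : 0 < t := by rw [ht]; positivity
  have ht1 : t < 1 := by
    have := min_le_right θ 1
    rw [ht]
    linarith
  have htθ : 16 * t ≤ θ := by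
    have := min_le_left θ 1
    rw [ht]
    linarith
  have htp : ∀ n, 0 < t ^ n := fun n => pow_pos ht0 n
  obtain ⟨g, α, hblk, hα, hα1, hα2, hψ⟩ := hJSQ E f θ (fun n => t ^ n)
    (fun n => t ^ (n + 1) * ((1 / 2) ^ n / 4)) hf hθ hdist (pow_zero t)
    (fun n => ⟨htp n, by
      have := htp n
      change t ^ (n + 1) < t ^ n
      rw [pow_succ]
      nlinarith⟩)
    (fun n => by
      have := htp (n + 1)
      positivity)
  have hg := (hL4 f g hf hblk).1
  obtain ⟨⟨w, hw⟩, hL2, hL3⟩ := hL1 g hg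
  have hw1 := hL2 w hw
  obtain ⟨h, hh1, hh2⟩ := core_fn t θ ht0 ht1 g w hg hw1 α hα hα1 hα2 (fun n => hψ w hw n) hθ
  refine ⟨h, fun x hx hcon => ?_⟩
  have hpos : 0 < ‖h‖ := hθ.trans_le hh1
  -- rotation
  obtain ⟨c, hc1, hc2⟩ : ∃ c : 𝕜, ‖c‖ = 1 ∧ c * h x = ((‖h‖ : ℝ) : 𝕜) := by
    have hne : h x ≠ 0 := by
      rw [← norm_pos_iff, hcon]
      exact hpos
    have hn : ‖h x‖ ≠ 0 := norm_ne_zero_iff.2 hne
    refine ⟨((‖h x‖ : ℝ) : 𝕜)⁻¹ * (starRingEnd 𝕜) (h x), ?_, ?_⟩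
    · rw [norm_mul, norm_inv, RCLike.norm_ofReal, abs_of_nonneg (norm_nonneg _), RCLike.norm_conj]
      exact inv_mul_cancel₀ hn
    · have h1 : (starRingEnd 𝕜) (h x) * h x = ((‖h x‖ : ℝ) : 𝕜) * ((‖h x‖ : ℝ) : 𝕜) := by
        rw [RCLike.conj_mul]
        ring
      have h2 : ((‖h x‖ : ℝ) : 𝕜) ≠ 0 := RCLike.ofReal_ne_zero.2 hn
      rw [mul_assoc, h1, inv_mul_cancel_left₀ h2, hcon]
  have hx' : ‖c • x‖ ≤ 1 := by
    rw [norm_smul, hc1, one_mul]
    exact hx
  have hre : RCLike.re (h (c • x)) = ‖h‖ := by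
    rw [map_smul, smul_eq_mul, hc2, RCLike.ofReal_re]
  obtain ⟨n, hn⟩ := (hL3 w hw (c • x) t ht0).exists
  have hbound : ∀ F : StrongDual 𝕜 E, RCLike.re (F (c • x)) ≤ ‖F‖ := by
    intro F
    refine (RCLike.re_le_norm _).trans ((F.le_opNorm _).trans ?_)
    exact mul_le_of_le_one_right (norm_nonneg _) hx'
  have hdec : RCLike.re (h (c • x)) = RCLike.re (Dn t g w n (c • x)) +
      (t ^ n - t ^ (n + 1)) * (RCLike.re (g n (c • x)) - RCLike.re (w (c • x))) +
      RCLike.re ((h - Dn t g w (n + 1)) (c • x)) := by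
    rw [Dn_succ]
    simp only [_root_.sub_apply, _root_.add_apply, _root_.smul_apply, map_sub, map_add,
      RCLike.smul_re]
    ring
  have h1 := hbound (Dn t g w n)
  have h2 := hbound (h - Dn t g w (n + 1))
  have h3 := (hh2 n).2
  have h4 := (hh2 (n + 1)).1
  have hb : 0 ≤ t ^ n - t ^ (n + 1) := by
    have := htp n
    rw [pow_succ]
    nlinarith
  have h5 : (t ^ n - t ^ (n + 1)) * (RCLike.re (g n (c • x)) - RCLike.re (w (c • x))) ≤
      (t ^ n - t ^ (n + 1)) * t := by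
    refine mul_le_mul_of_nonneg_left ?_ hb
    linarith
  have h6 : (t ^ n - t ^ (n + 1)) * t ≤ t ^ n * t := by
    refine mul_le_mul_of_nonneg_right ?_ ht0.le
    linarith [htp (n + 1)]
  have h7 : ‖h‖ ≤ ‖h‖ * (1 - t ^ n / 2) + t ^ n * t + 2 * t ^ (n + 1) := by
    rw [hre] at hdec
    linarith
  have h8 : t ^ n * (‖h‖ / 2) ≤ t ^ n * (3 * t) := by
    rw [pow_succ] at h7
    linarith
  have h9 := le_of_mul_le_mul_left h8 (htp n)
  linarith

end Pool.Agent.H94.WR
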