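import Pool.Agent.H88.WR.Targets

/-!
# Row JTH: the sequences of James in nonreflexive spaces
-/

set_option autoImplicit false

open Filter Topology Set Pool.Agent.H85.WMP Pool.Agent.H88.WR

namespace Pool.Agent.H94.WR

/-- sequences with a condition on the past -/
theorem exists_hist {α : Type*} [Inhabited α] (P : ℕ → (ℕ → α) → α → Prop)
    (hloc : ∀ (n : ℕ) (s t : ℕ → α) (a : α), (∀ j < n, s j = t j) → P n s a → P n t a)
    (h : ∀ n s, ∃ a, P n s a) : ∃ s : ℕ → α, ∀ n, P n s (s n) := by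
  classical
  choose c hc using h
  let H : ℕ → ℕ → α := fun n =>
    Nat.rec (fun _ => default) (fun n s => Function.update s n (c n s)) n
  have hH : ∀ n, H (n + 1) = Function.update (H n) n (c n (H n)) := fun n => rfl
  have hj : ∀ n, ∀ j < n, H n j = c j (H j) := by
    intro n
    induction n with
    | zero => intro j hj; omega
    | succ n ih =>
      intro j hj
      rw [hH]
      rcases Nat.lt_succ_iff_lt_or_eq.1 hj with h1 | h1
      · rw [Function.update_of_ne h1.ne]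
        exact ih j h1
      · subst h1
        rw [Function.update_self]
  exact ⟨fun n => c n (H n), fun n => hloc n (H n) _ _ (hj n) (hc n (H n))⟩

section

variable {𝕜 : Type} [RCLike 𝕜] {E : Type} [NormedAddCommGroup E] [NormedSpace 𝕜 E]

/-- a functional which vanishes on a closed subspace -/
theorem exists_ann (Y : Submodule 𝕜 E) (hY : IsClosed (Y : Set E)) (z : E) (hz : z ∉ Y) :
    ∃ (f : StrongDual 𝕜 E) (θ : ℝ), 0 < θ ∧ ‖f‖ < 1 ∧ (∀ y ∈ Y, f y = 0) ∧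
      f z = ((θ : ℝ) : 𝕜) := by
  have : IsClosed (Y : Set E) := hY
  have h1 : ‖Y.mkQL z‖ ≠ 0 := by
    rw [norm_ne_zero_iff]
    intro h
    exact hz ((Submodule.Quotient.mk_eq_zero Y).1 h)
  obtain ⟨g, -, hg⟩ := exists_dual_vector 𝕜 (Y.mkQL z) h1
  have hpos : 0 < ‖Y.mkQL z‖ := lt_of_le_of_ne (norm_nonneg _) (Ne.symm h1)
  let χ : StrongDual 𝕜 E := g.comp Y.mkQL
  have hD : 0 < ‖χ‖ + 1 := by positivity
  have hχ : ∀ y ∈ Y, χ y = 0 := by
    intro y hy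
    have h2 : Y.mkQL y = 0 := (Submodule.Quotient.mk_eq_zero Y).2 hy
    change g (Y.mkQL y) = 0
    rw [h2, map_zero]
  have hz' : χ z = ((‖Y.mkQL z‖ : ℝ) : 𝕜) := hg
  refine ⟨(((‖χ‖ + 1)⁻¹ : ℝ) : 𝕜) • χ, (‖χ‖ + 1)⁻¹ * ‖Y.mkQL z‖, by positivity, ?_, ?_, ?_⟩
  · rw [norm_smul, RCLike.norm_ofReal, abs_of_pos (by positivity), inv_mul_lt_iff₀ hD]
    linarith
  · intro y hy
    rw [_root_.smul_apply, hχ y hy, smul_zero]
  · rw [_root_.smul_apply, hz', smul_eq_mul, ← RCLike.ofReal_mul]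

/-- scaling -/
theorem exists_scaled (Y : Submodule 𝕜 E) (z : E) (hz : z ∉ Y) :
    ∃ w : E, ‖w‖ < 1 ∧ w ∉ Y := by
  have hD : 0 < ‖z‖ + 1 := by positivity
  have hc0 : (((‖z‖ + 1)⁻¹ : ℝ) : 𝕜) ≠ 0 := by
    rw [RCLike.ofReal_ne_zero]
    positivity
  refine ⟨(((‖z‖ + 1)⁻¹ : ℝ) : 𝕜) • z, ?_, fun h => hz ?_⟩
  · rw [norm_smul, RCLike.norm_ofReal, abs_of_pos (by positivity), inv_mul_lt_iff₀ hD]
    linarith
  · have h2 := Y.smul_mem ((((‖z‖ + 1)⁻¹ : ℝ) : 𝕜)⁻¹) h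
    rwa [inv_smul_smul₀ hc0] at h2

end

theorem pf_JTH (𝕜 : Type) [RCLike 𝕜] (hHEL : T_HEL 𝕜) : T_JTH 𝕜 := by
  intro E _ _ _ hE
  have hJ : ∀ (x : E) (f : StrongDual 𝕜 E), NormedSpace.inclusionInDoubleDual 𝕜 E x f = f x :=
    fun x f => NormedSpace.dual_def 𝕜 E x f
  -- a functional outside
  have h0 : ∃ Φ : StrongDual 𝕜 (StrongDual 𝕜 E), ∀ x,
      NormedSpace.inclusionInDoubleDual 𝕜 E x ≠ Φ := by
    by_contra hcon
    push Not at hcon
    exact hE hcon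
  obtain ⟨Φ₀, hΦ₀⟩ := h0
  let Y : Submodule 𝕜 (StrongDual 𝕜 (StrongDual 𝕜 E)) :=
    LinearMap.range (NormedSpace.inclusionInDoubleDual 𝕜 E).toLinearMap
  have hYc : IsClosed (Y : Set (StrongDual 𝕜 (StrongDual 𝕜 E))) := by
    have h1 : (Y : Set (StrongDual 𝕜 (StrongDual 𝕜 E))) =
        range (NormedSpace.inclusionInDoubleDualLi (E := E) 𝕜) := by
      ext φ
      constructor
      · rintro ⟨x, hx⟩
        exact ⟨x, hx⟩
      · rintro ⟨x, hx⟩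
        exact ⟨x, hx⟩
    rw [h1]
    have h2 : IsUniformInducing (NormedSpace.inclusionInDoubleDualLi (E := E) 𝕜) :=
      (NormedSpace.inclusionInDoubleDualLi (E := E) 𝕜).isometry.isUniformInducing
    exact (h2.isComplete_range).isClosed
  have hΦ₀Y : Φ₀ ∉ Y := by
    rintro ⟨x, hx⟩
    exact hΦ₀ x hx
  obtain ⟨Φ, hΦ1, hΦY⟩ :=
    exists_scaled (𝕜 := 𝕜) (E := StrongDual 𝕜 (StrongDual 𝕜 E)) Y Φ₀ hΦ₀Y
  obtain ⟨X, θ, hθ, hX1, hXY, hXΦ⟩ :=
    exists_ann (𝕜 := 𝕜) (E := StrongDual 𝕜 (StrongDual 𝕜 E)) Y hYc Φ hΦY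
  have hXJ : ∀ x : E, X (NormedSpace.inclusionInDoubleDual 𝕜 E x) = 0 := fun x =>
    hXY _ ⟨x, rfl⟩
  -- the sequence
  have hin : Inhabited (StrongDual 𝕜 E × E) := ⟨(0, 0)⟩
  obtain ⟨s, hs⟩ := exists_hist (α := StrongDual 𝕜 E × E)
    (fun n s a => ‖a.1‖ ≤ 1 ∧ (∀ j < n, a.1 (s j).2 = 0) ∧ Φ a.1 = ((θ : ℝ) : 𝕜) ∧ ‖a.2‖ ≤ 1 ∧
      (∀ i < n, (s i).1 a.2 = Φ (s i).1) ∧ a.1 a.2 = Φ a.1)
    (by
      rintro n s t a hst ⟨h1, h2, h3, h4, h5, h6⟩
      refine ⟨h1, fun j hj => ?_, h3, h4, fun i hi => ?_, h6⟩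
      · rw [← hst j hj]
        exact h2 j hj
      · rw [← hst i hi]
        exact h5 i hi)
    (by
      intro n s
      obtain ⟨f, hf1, hf2⟩ := hHEL (StrongDual 𝕜 E) X (n + 1)
        (Fin.snoc (fun j : Fin n => NormedSpace.inclusionInDoubleDual 𝕜 E (s j).2) Φ) hX1
      obtain ⟨y, hy1, hy2⟩ := hHEL E Φ (n + 1) (Fin.snoc (fun j : Fin n => (s j).1) f) hΦ1
      refine ⟨(f, y), hf1, fun j hj => ?_, ?_, hy1, fun i hi => ?_, ?_⟩
      · have h := hf2 (Fin.castSucc ⟨j, hj⟩)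
        rw [Fin.snoc_castSucc, hXJ] at h
        exact h
      · have h := hf2 (Fin.last n)
        rw [Fin.snoc_last, hXΦ] at h
        exact h
      · have h := hy2 (Fin.castSucc ⟨i, hi⟩)
        rw [Fin.snoc_castSucc] at h
        exact h
      · have h := hy2 (Fin.last n)
        rw [Fin.snoc_last] at h
        exact h)
  refine ⟨θ, fun n => (s n).1, fun n => (s n).2, hθ, fun n => (hs n).1, fun n => (hs n).2.2.2.1,
    fun n j hnj => ?_, fun n j hjn => (hs n).2.1 j hjn⟩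
  rcases hnj.lt_or_eq with h | h
  · rw [(hs j).2.2.2.2.1 n h, (hs n).2.2.1]
  · subst h
    rw [(hs n).2.2.2.2.2, (hs n).2.2.1]

end Pool.Agent.H94.WR
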